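import Mathlib
import Pool.Agent.KS6_1.Beurling.Orders

/-!
# Generalised primes next to the primes, with a prescribed order of the maximal gap

A system of generalised primes (Beurling) is a strictly increasing sequence `q 0 < q 1 < ...` of
real numbers `> 1` tending to infinity; its generalised integers are the products
`∏ q i ^ f i`, counted with multiplicity. Question Q1 can be asked for every such system: is
`q (n + 1) - q n = O ((log (q n)) ^ 2)`?

We show that Q1 is not decided by the multiplicative structure together with the regularity of the
integers and the closeness to the primes: the maximal gap may have any order of magnitude `g`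
between `log x` and `x ^ θ₁`, `θ₁ < 1`, for systems with `|q n - p n| ≤ p n ^ θ`, `θ < 1`, whose
integers have the counting function `ρ x + O (x exp (- c √(log x log log x)))`.

The proof moves all the primes: the primes of a block are placed in an arithmetic progression
which leaves out an initial segment of the block of length `g`. There are enough primes in the
blocks by Hoheisel's theorem. The counting function of the generalised integers is stable under
perturbations of the primes of relative size `p ^ (- δ)`: primes up to `y` are changed one by one,
with an error term in Rankin's form, the primes larger than `y` change an integer by a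
factor close to `1`.
-/

set_option autoImplicit false

namespace Pool.Agent.Results.MP_028722_nt.BeurlingAllOrders

open Filter Asymptotics

/-- The number of generalised integers `∏ q i ^ f i` up to `x`, counted with multiplicity: the
number of the exponent vectors `f` (finitely supported functions from the indices to the natural
numbers) for which the product is at most `x`. -/
noncomputable def intCount (q : ℕ → ℝ) (x : ℝ) : ℕ :=
  Set.ncard {f : ℕ →₀ ℕ | (f.prod fun i k => q i ^ k) ≤ x}

/-- **Every order of the maximal gap.** Let `g` be eventually nonnegative and nondecreasing with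
`g x ≤ x ^ θ₁` for large `x`, where `θ₁ < 1`, and regular in the sense that for all `ε > 0` there
is `δ > 0` with `g ((1 + δ) x) ≤ (1 + ε) g x` for large `x`. Then there are generalised primes
`1 < q 0 < q 1 < ...` with `|q n - p n| ≤ p n ^ θ` for all `n`, where `θ < 1` and `p n` is the
`n`-th prime, whose integers have the counting function
`ρ x + O (x exp (- c √(log x log log x)))` with `ρ, c > 0`, such that
`q (n + 1) - q n ≤ g (q n) + A log (q n)` for all large `n`, while for every `ε > 0` and all large
`x` some gap up to `x` is at least `(1 - ε) g x`. -/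
theorem result (g : ℝ → ℝ) (θ₁ : ℝ) (hθ₁ : θ₁ < 1) (hpos : ∀ᶠ x in atTop, 0 ≤ g x)
    (hmono : ∃ x₀, MonotoneOn g (Set.Ici x₀)) (hle : ∀ᶠ x in atTop, g x ≤ x ^ θ₁)
    (hreg : ∀ ε > 0, ∃ δ > 0, ∀ᶠ x in atTop, g ((1 + δ) * x) ≤ (1 + ε) * g x) :
    ∃ (q : ℕ → ℝ) (θ ρ c A : ℝ), StrictMono q ∧ 1 < q 0 ∧ θ < 1 ∧ 0 < ρ ∧ 0 < c ∧
      (∀ n, |q n - (Nat.nth Nat.Prime n : ℝ)| ≤ (Nat.nth Nat.Prime n : ℝ) ^ θ) ∧
      ((fun x : ℝ => (intCount q x : ℝ) - ρ * x) =O[atTop]
        fun x : ℝ => x * Real.exp (-c * Real.sqrt (Real.log x * Real.log (Real.log x)))) ∧
      (∀ᶠ n in atTop, q (n + 1) - q n ≤ g (q n) + A * Real.log (q n)) ∧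
      (∀ ε > 0, ∀ᶠ x : ℝ in atTop, ∃ n, q (n + 1) ≤ x ∧ (1 - ε) * g x ≤ q (n + 1) - q n) :=
  Pool.Agent.KS6_1.Beu.orders g θ₁ hθ₁ hpos hmono hle hreg

end Pool.Agent.Results.MP_028722_nt.BeurlingAllOrders
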