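import Pool.Agent.KS6_51.INV.Mat
import Pool.Agent.KS6_51.INV.Fld
import Pool.Agent.KS6_51.INV.Arr

set_option autoImplicit false

/-!
# Record prime gaps around all coordinates of the points of invariant sets modulo `p`

Write `f(x) = log x (log₂ x)² log₄ x / (log₃ x)²` for the size of the largest gaps between consecutive primes up to `x`
which are known (starting library).  Let `Ω` be an ARBITRARY set of vectors modulo the prime `p` which is mapped onto
itself by some affine maps.  If every nonzero linear functional has at least `T` images under (products of) the linear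
parts of these maps, and if `(∏ N_j)² |Ω| T ≥ p^(3r + ε)`, then at least `(∏ N_j) |Ω| p^(-r - ε)` points of `Ω` have
the least residues of all `r` coordinates in the prescribed intervals `[A_j, A_j + N_j)`, and each of the `r` least
residues has no prime within `κ f(p)`.  (For whole boxes: `|Ω| T ≥ p^(r + ε)`.)

Three cases in which the orbits of the functionals are determined:

* unions of cosets of a subgroup `U` of the multiplicative group of the field with `p^r` elements, coordinates with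
  respect to any basis: `T = |U|` (for instance the elements whose norm is in an arbitrary set of residues);
* the orbits of `x ↦ M x + b`, where `M` is a matrix with irreducible characteristic polynomial (for instance `r`
  consecutive terms of a linear recurring sequence of order `r` modulo `p`): `T` is the order of `M`;
* `k`-dimensional arrays (`k = 1`: vectors, `k = 2`: matrices, `k ≥ 3`: tensors) of any format `n_1 × ... × n_k`: sets
  which are closed under the addition of a multiple of a slice to another slice, in the directions of a set `D`: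
  `T = (p - 1) p^(∑_{j ∈ D} (n_j - 1))` (for instance the matrices whose determinant is in an arbitrary set of
  residues, or whose rank is given; the tensors whose rank, or hyperdeterminant, is in an arbitrary set).

Proof (`Pool.Agent.KS6_51.INV`).  The modulus of the Fourier transform of `Ω` is constant on the orbits of the
functionals, hence at most `(p^r |Ω| / T)^(1/2)` off `0` by Parseval's identity; the theorem on sets with small Fourier
coefficients of the starting library (`Pool.Agent.Q20.RG.primeSet`), which rests on the covering criterion for vectors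
of integers (`Pool.Agent.Y961.JR.critJ`), does the rest.
-/

namespace Pool.Agent.Results.MP_028722_nt.InvariantSets

open Finset Matrix Module

/-- the record scale `log x (log₂ x)² log₄ x / (log₃ x)²` -/
noncomputable def scale (x : ℝ) : ℝ :=
  Real.log x * (Real.log (Real.log x)) ^ 2 * Real.log (Real.log (Real.log (Real.log x))) /
    (Real.log (Real.log (Real.log x))) ^ 2

/-- no prime is at distance at most `K` of `n` -/
def Isolated (K : ℝ) (n : ℕ) : Prop := ∀ q : ℕ, q.Prime → K < |(q : ℝ) - n|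

/-- the intervals `[A j, A j + N j)` are in `[0, p)` and have length at least `p ^ ε` -/
def Boxes {J : Type} (ε : ℝ) (p : ℕ) (A N : J → ℕ) : Prop := ∀ j, A j + N j ≤ p ∧ (p : ℝ) ^ ε ≤ N j

/-- at least `(∏ N j) C p ^ (-|J| - ε)` vectors of integers `z` with the property `P` have `A j ≤ z j < A j + N j` and
no primes at distance at most `K` of `z j`, for all `j` -/
def Many {J : Type} [Fintype J] (K ε : ℝ) (p : ℕ) (C : ℝ) (P : (J → ℕ) → Prop) (A N : J → ℕ) : Prop :=
  ∃ G : Finset (J → ℕ), (∏ j, (N j : ℝ)) * C * (p : ℝ) ^ (-(Fintype.card J : ℝ) - ε) ≤ G.card ∧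
    ∀ z ∈ G, P z ∧ ∀ j, (A j ≤ z j ∧ z j < A j + N j) ∧ Isolated K (z j)

/-- every set of row vectors which contains a nonzero vector and is closed under `h ↦ h M`, `(M, b) ∈ Γ`, has at least
`T` elements -/
def LargeOrbits {p r : ℕ} (Γ : Set (Matrix (Fin r) (Fin r) (ZMod p) × (Fin r → ZMod p))) (T : ℝ) : Prop :=
  ∀ H : Finset (Fin r → ZMod p), (∃ h ∈ H, h ≠ 0) → (∀ γ ∈ Γ, ∀ h ∈ H, h ᵥ* γ.1 ∈ H) → T ≤ H.card

/-- the array `X` with `s` times the slice `i j = b` added to the slice `i j = a` -/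
def addSlice {p k : ℕ} {n : Fin k → ℕ} (j : Fin k) (a b : Fin (n j)) (s : ZMod p)
    (X : (∀ j, Fin (n j)) → ZMod p) : (∀ j, Fin (n j)) → ZMod p :=
  fun i => if i j = a then X i + s * X (Function.update i j b) else X i

/-- **Record prime gaps around all coordinates of the points of invariant sets modulo `p`.**

1. Sets `Ω` of vectors modulo `p` which are mapped onto themselves by the affine maps `v ↦ M v + b`, `(M, b) ∈ Γ`.

2. Sets `Ω` of elements of a field of degree `r` over the prime field, closed under the multiplication with the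
elements of a subgroup `U` of the multiplicative group; coordinates with respect to a basis `B`.

3. The orbits `x (k + 1) = M x k + b`, for a matrix `M ≠ 1` with irreducible characteristic polynomial.

4. Sets `Ω` of arrays of the format `n 0 × ... × n (k - 1)`, closed under the addition of multiples of slices to other
slices in the directions of `D`. -/
theorem result :
    (∀ r : ℕ, 1 ≤ r → ∀ ε : ℝ, 0 < ε → ε ≤ 1 → ∃ κ : ℝ, 0 < κ ∧ ∃ p₀ : ℕ, ∀ p : ℕ, p₀ ≤ p → ∀ [Fact p.Prime],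
      ∀ (Γ : Set (Matrix (Fin r) (Fin r) (ZMod p) × (Fin r → ZMod p))) (T : ℝ), LargeOrbits Γ T →
      ∀ Ω : Finset (Fin r → ZMod p), (∀ γ ∈ Γ, Set.BijOn (fun v => γ.1 *ᵥ v + γ.2) Ω Ω) →
      ∀ A N : Fin r → ℕ, Boxes ε p A N →
        (p : ℝ) ^ (3 * (r : ℝ) + ε) ≤ (∏ j, (N j : ℝ)) ^ 2 * Ω.card * T →
        Many (κ * scale p) ε p Ω.card (fun z => (fun j => (z j : ZMod p)) ∈ Ω) A N) ∧
    (∀ r : ℕ, 1 ≤ r → ∀ ε : ℝ, 0 < ε → ε ≤ 1 → ∃ κ : ℝ, 0 < κ ∧ ∃ p₀ : ℕ, ∀ p : ℕ, p₀ ≤ p → ∀ [Fact p.Prime],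
      ∀ (F : Type) [Field F] [Algebra (ZMod p) F] (B : Basis (Fin r) (ZMod p) F) (U : Subgroup Fˣ) (Ω : Finset F),
      (∀ u ∈ U, ∀ y ∈ Ω, (u : F) * y ∈ Ω) →
      ∀ A N : Fin r → ℕ, Boxes ε p A N →
        (p : ℝ) ^ (3 * (r : ℝ) + ε) ≤ (∏ j, (N j : ℝ)) ^ 2 * Ω.card * Nat.card U →
        Many (κ * scale p) ε p Ω.card (fun z => ∑ j, (z j : ZMod p) • B j ∈ Ω) A N) ∧
    (∀ r : ℕ, 1 ≤ r → ∀ ε : ℝ, 0 < ε → ε ≤ 1 → ∃ κ : ℝ, 0 < κ ∧ ∃ p₀ : ℕ, ∀ p : ℕ, p₀ ≤ p → ∀ [Fact p.Prime],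
      ∀ M : Matrix (Fin r) (Fin r) (ZMod p), Irreducible M.charpoly → M ≠ 1 →
      ∀ (b : Fin r → ZMod p) (x : ℕ → Fin r → ZMod p), (∀ k, x (k + 1) = M *ᵥ x k + b) → x 1 ≠ x 0 →
      ∀ A N : Fin r → ℕ, Boxes ε p A N →
        (p : ℝ) ^ (3 * (r : ℝ) / 2 + ε) ≤ (∏ j, (N j : ℝ)) * orderOf M →
        ∃ G : Finset ℕ, (∏ j, (N j : ℝ)) * orderOf M * (p : ℝ) ^ (-(r : ℝ) - ε) ≤ G.card ∧
          ∀ k ∈ G, k < orderOf M ∧ ∀ j, (A j ≤ (x k j).val ∧ (x k j).val < A j + N j) ∧
            Isolated (κ * scale p) (x k j).val) ∧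
    (∀ (k : ℕ) (n : Fin k → ℕ), (∀ j, 1 ≤ n j) → ∀ D : Finset (Fin k), (∃ j ∈ D, 2 ≤ n j) →
      ∀ ε : ℝ, 0 < ε → ε ≤ 1 → ∃ κ : ℝ, 0 < κ ∧ ∃ p₀ : ℕ, ∀ p : ℕ, p₀ ≤ p → ∀ [Fact p.Prime],
      ∀ Ω : Finset ((∀ j, Fin (n j)) → ZMod p),
      (∀ j ∈ D, ∀ a b : Fin (n j), a ≠ b → ∀ s : ZMod p, ∀ X ∈ Ω, addSlice j a b s X ∈ Ω) →
      ∀ A N : (∀ j, Fin (n j)) → ℕ, Boxes ε p A N →
        (p : ℝ) ^ (3 * (∏ j, (n j : ℝ)) - ∑ j ∈ D, ((n j : ℝ) - 1) - 1 + ε) ≤ (∏ i, (N i : ℝ)) ^ 2 * Ω.card →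
        Many (κ * scale p) ε p Ω.card (fun z => (fun i => (z i : ZMod p)) ∈ Ω) A N) := by
  refine ⟨?_, ?_, ?_, ?_⟩
  · intro r hr ε h0 h1
    obtain ⟨κ, hκ, p₀, h⟩ := Pool.Agent.KS6_51.INV.general r hr ε h0 h1
    refine ⟨κ, hκ, p₀, fun p hp _ Γ T hT Ω hΩ A N hAN hW => ?_⟩
    obtain ⟨G, g1, g2⟩ := h p hp Γ T hT Ω hΩ A N (fun j => (hAN j).1) (fun j => (hAN j).2) hW
    refine ⟨G, by rw [Fintype.card_fin]; exact g1, fun z hz => ?_⟩
    obtain ⟨h2, h3, h4⟩ := g2 z hz
    exact ⟨h3, fun j => ⟨h2 j, h4 j⟩⟩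
  · intro r hr ε h0 h1
    obtain ⟨κ, hκ, p₀, h⟩ := Pool.Agent.KS6_51.INV.field r hr ε h0 h1
    refine ⟨κ, hκ, p₀, fun p hp _ F _ _ B U Ω hΩ A N hAN hW => ?_⟩
    obtain ⟨G, g1, g2⟩ := h p hp F B U Ω hΩ A N (fun j => (hAN j).1) (fun j => (hAN j).2) hW
    refine ⟨G, by rw [Fintype.card_fin]; exact g1, fun z hz => ?_⟩
    obtain ⟨h2, h3, h4⟩ := g2 z hz
    exact ⟨h3, fun j => ⟨h2 j, h4 j⟩⟩
  · intro r hr ε h0 h1
    obtain ⟨κ, hκ, p₀, h⟩ := Pool.Agent.KS6_51.INV.recur r hr ε h0 h1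
    refine ⟨κ, hκ, p₀, fun p hp _ M hM hM1 b x hx h01 A N hAN hW => ?_⟩
    exact h p hp M hM hM1 b x hx h01 A N (fun j => (hAN j).1) (fun j => (hAN j).2) hW
  · intro k n hn D hD ε h0 h1
    obtain ⟨κ, hκ, p₀, h⟩ := Pool.Agent.KS6_51.INV.arrays k n hn D hD ε h0 h1
    refine ⟨κ, hκ, p₀, fun p hp _ Ω hΩ A N hAN hW => ?_⟩
    obtain ⟨G, g1, g2⟩ := h p hp Ω hΩ A N (fun j => (hAN j).1) (fun j => (hAN j).2) hW
    have hcard : (Fintype.card (∀ j, Fin (n j)) : ℝ) = ∏ j, (n j : ℝ) := by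
      rw [Fintype.card_pi]
      push_cast
      exact prod_congr rfl fun j _ => by rw [Fintype.card_fin]
    refine ⟨G, by rw [hcard]; exact g1, fun z hz => ?_⟩
    obtain ⟨h2, h3, h4⟩ := g2 z hz
    exact ⟨h3, fun j => ⟨h2 j, h4 j⟩⟩

end Pool.Agent.Results.MP_028722_nt.InvariantSets
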