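import Pool.Agent.KS6_52.RG.Apps

set_option autoImplicit false

/-!
# Record prime gaps around a residue and its inverse, and around consecutive Fibonacci numbers, modulo `p`

Write `f(x) = log x (log₂ x)² log₄ x / (log₃ x)²` for the size of the largest gaps between consecutive primes up to `x`
which are known (starting library).

1. Let `Ω` be a set of vectors modulo `p` which is mapped onto itself by some affine maps such that every nonzero linear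
functional has at least `T` images under products of their linear parts, and let `E` be the additive energy of `Ω`.  If
`(∏ N_j)⁴ |Ω|⁴ T ≥ p^(5r + ε) E` then at least `(∏ N_j) |Ω| p^(-r - ε)` points of `Ω` have the least residues of all
`r` coordinates in the prescribed intervals `[A_j, A_j + N_j)` and without primes within `κ f(p)`.
2. The orbits of matrices of determinant one: `x_(k+1) = M x_k` in the plane modulo `p`, `t` the order of `M`, if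
`(N_0 N_1)⁴ t³ ≥ p^(10 + ε)`; for whole intervals the condition is `t ≥ p^(2/3 + ε)`.
3. The elements `a u` and `b / u`, where `u` runs through a subgroup of order `t` of the multiplicative group modulo `p`.
4. The consecutive Fibonacci numbers `F_n`, `F_(n+1)` modulo `p`, where `t` is the period of the Fibonacci numbers modulo
`p`.

Proof (`Pool.Agent.KS6_52.RG`): the orbits lie on nondegenerate conics, and a point of the plane is the sum of two points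
of the conic in at most one way, hence the energy is at most `3 t²`; the modulus of the Fourier transform is constant on
the orbits of the functionals, hence at most `(3 p² t)^(1/4)` by the fourth moment; the theorem on sets with small
Fourier coefficients of the starting library (`Pool.Agent.Q20.RG.primeSet`) does the rest.
-/

namespace Pool.Agent.Results.MP_028722_nt.InversesAndFibonacci

open Finset Matrix

/-- the record scale `log x (log₂ x)² log₄ x / (log₃ x)²` -/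
noncomputable def scale (x : ℝ) : ℝ :=
  Real.log x * (Real.log (Real.log x)) ^ 2 * Real.log (Real.log (Real.log (Real.log x))) /
    (Real.log (Real.log (Real.log x))) ^ 2

/-- no prime is at distance at most `K` of `n` -/
def Isolated (K : ℝ) (n : ℕ) : Prop := ∀ q : ℕ, q.Prime → K < |(q : ℝ) - n|

/-- the intervals `[A j, A j + N j)` are in `[0, p)` and have length at least `p ^ ε` -/
def Boxes {r : ℕ} (ε : ℝ) (p : ℕ) (A N : Fin r → ℕ) : Prop := ∀ j, A j + N j ≤ p ∧ (p : ℝ) ^ ε ≤ N j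

/-- `n` is in the `j`-th interval, and no prime is at distance at most `K` of `n` -/
def Hit {r : ℕ} (K : ℝ) (A N : Fin r → ℕ) (j : Fin r) (n : ℕ) : Prop := (A j ≤ n ∧ n < A j + N j) ∧ Isolated K n

/-- every set of row vectors which contains a nonzero vector and is closed under `h ↦ h M`, `(M, b) ∈ Γ`, has at least
`T` elements -/
def LargeOrbits {p r : ℕ} (Γ : Set (Matrix (Fin r) (Fin r) (ZMod p) × (Fin r → ZMod p))) (T : ℝ) : Prop :=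
  ∀ H : Finset (Fin r → ZMod p), (∃ h ∈ H, h ≠ 0) → (∀ γ ∈ Γ, ∀ h ∈ H, h ᵥ* γ.1 ∈ H) → T ≤ H.card

/-- the additive energy: the number of `(u, v, w, z)` in `Ω⁴` with `u + v = w + z` -/
def energy {p r : ℕ} (Ω : Finset (Fin r → ZMod p)) : ℕ :=
  (((Ω ×ˢ Ω) ×ˢ (Ω ×ˢ Ω)).filter fun q => q.1.1 + q.1.2 = q.2.1 + q.2.2).card

/-- **Record prime gaps around a residue and its inverse, and around consecutive Fibonacci numbers, modulo `p`.** -/
theorem result :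
    (∀ r : ℕ, 1 ≤ r → ∀ ε : ℝ, 0 < ε → ε ≤ 1 → ∃ κ : ℝ, 0 < κ ∧ ∃ p₀ : ℕ, ∀ p : ℕ, p₀ ≤ p → ∀ [Fact p.Prime],
      ∀ (Γ : Set (Matrix (Fin r) (Fin r) (ZMod p) × (Fin r → ZMod p))) (T : ℝ), LargeOrbits Γ T →
      ∀ Ω : Finset (Fin r → ZMod p), (∀ γ ∈ Γ, Set.BijOn (fun v => γ.1 *ᵥ v + γ.2) Ω Ω) →
      ∀ A N : Fin r → ℕ, Boxes ε p A N →
        (p : ℝ) ^ (5 * (r : ℝ) + ε) * energy Ω ≤ ((∏ j, (N j : ℝ)) * Ω.card) ^ 4 * T →
        ∃ G : Finset (Fin r → ℕ), (∏ j, (N j : ℝ)) * Ω.card * (p : ℝ) ^ (-(r : ℝ) - ε) ≤ G.card ∧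
          ∀ z ∈ G, (fun j => (z j : ZMod p)) ∈ Ω ∧ ∀ j, Hit (κ * scale p) A N j (z j)) ∧
    (∀ ε : ℝ, 0 < ε → ε ≤ 1 → ∃ κ : ℝ, 0 < κ ∧ ∃ p₀ : ℕ, ∀ p : ℕ, p₀ ≤ p → ∀ [Fact p.Prime],
      ∀ M : Matrix (Fin 2) (Fin 2) (ZMod p), M.det = 1 → M.trace ^ 2 ≠ 4 →
      ∀ x : ℕ → Fin 2 → ZMod p, (∀ k, x (k + 1) = M *ᵥ x k) → x 0 0 * x 1 1 ≠ x 0 1 * x 1 0 →
      ∀ A N : Fin 2 → ℕ, Boxes ε p A N →
        (p : ℝ) ^ (10 + ε) ≤ (∏ j, (N j : ℝ)) ^ 4 * (orderOf M : ℝ) ^ 3 →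
        ∃ G : Finset ℕ, (∏ j, (N j : ℝ)) * orderOf M * (p : ℝ) ^ (-2 - ε) ≤ G.card ∧
          ∀ k ∈ G, k < orderOf M ∧ ∀ j, Hit (κ * scale p) A N j (x k j).val) ∧
    (∀ ε : ℝ, 0 < ε → ε ≤ 1 → ∃ κ : ℝ, 0 < κ ∧ ∃ p₀ : ℕ, ∀ p : ℕ, p₀ ≤ p → ∀ [Fact p.Prime],
      ∀ (H : Subgroup (ZMod p)ˣ) (a b : (ZMod p)ˣ) (A N : Fin 2 → ℕ), Boxes ε p A N →
        (p : ℝ) ^ (10 + ε) ≤ (∏ j, (N j : ℝ)) ^ 4 * (Nat.card H : ℝ) ^ 3 →
        ∃ G : Finset (ZMod p)ˣ, (∏ j, (N j : ℝ)) * Nat.card H * (p : ℝ) ^ (-2 - ε) ≤ G.card ∧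
          ∀ u ∈ G, u ∈ H ∧ Hit (κ * scale p) A N 0 ((a * u : (ZMod p)ˣ) : ZMod p).val ∧
            Hit (κ * scale p) A N 1 ((b * u⁻¹ : (ZMod p)ˣ) : ZMod p).val) ∧
    (∀ ε : ℝ, 0 < ε → ε ≤ 1 → ∃ κ : ℝ, 0 < κ ∧ ∃ p₀ : ℕ, ∀ p : ℕ, p₀ ≤ p → p.Prime →
      ∀ t : ℕ, IsLeast {m : ℕ | 0 < m ∧ p ∣ Nat.fib m ∧ Nat.fib (m + 1) ≡ 1 [MOD p]} t →
      ∀ A N : Fin 2 → ℕ, Boxes ε p A N → (p : ℝ) ^ (10 + ε) ≤ (∏ j, (N j : ℝ)) ^ 4 * (t : ℝ) ^ 3 →
        ∃ G : Finset ℕ, (∏ j, (N j : ℝ)) * t * (p : ℝ) ^ (-2 - ε) ≤ G.card ∧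
          ∀ n ∈ G, n < 2 * t ∧ Hit (κ * scale p) A N 0 (Nat.fib n % p) ∧
            Hit (κ * scale p) A N 1 (Nat.fib (n + 1) % p)) := by
  refine ⟨?_, ?_, ?_, ?_⟩
  · intro r hr ε h0 h1
    obtain ⟨κ, hκ, p₀, h⟩ := Pool.Agent.KS6_52.RG.invariant r hr ε h0 h1
    refine ⟨κ, hκ, p₀, fun p hp _ Γ T hT Ω hΩ A N hAN hW => ?_⟩
    obtain ⟨G, g1, g2⟩ := h p hp Γ T hT Ω hΩ A N (fun j => (hAN j).1) (fun j => (hAN j).2) hW
    refine ⟨G, g1, fun z hz => ?_⟩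
    obtain ⟨h2, h3, h4⟩ := g2 z hz
    exact ⟨h3, fun j => ⟨h2 j, h4 j⟩⟩
  · intro ε h0 h1
    obtain ⟨κ, hκ, p₀, h⟩ := Pool.Agent.KS6_52.RG.sl2 ε h0 h1
    exact ⟨κ, hκ, p₀, fun p hp _ M hM ht x hx hx0 A N hAN hW =>
      h p hp M hM ht x hx hx0 A N (fun j => (hAN j).1) (fun j => (hAN j).2) hW⟩
  · intro ε h0 h1
    obtain ⟨κ, hκ, p₀, h⟩ := Pool.Agent.KS6_52.RG.inverses ε h0 h1
    refine ⟨κ, hκ, p₀, fun p hp _ H a b A N hAN hW => ?_⟩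
    obtain ⟨G, g1, g2⟩ := h p hp H a b A N (fun j => (hAN j).1) (fun j => (hAN j).2) hW
    refine ⟨G, g1, fun u hu => ?_⟩
    obtain ⟨h2, h3, h4, h5, h6⟩ := g2 u hu
    exact ⟨h2, ⟨h3, h5⟩, ⟨h4, h6⟩⟩
  · intro ε h0 h1
    obtain ⟨κ, hκ, p₀, h⟩ := Pool.Agent.KS6_52.RG.fibonacci ε h0 h1
    refine ⟨κ, hκ, p₀, fun p hp hpp t ht A N hAN hW => ?_⟩
    obtain ⟨G, g1, g2⟩ := h p hp hpp t ht A N (fun j => (hAN j).1) (fun j => (hAN j).2) hW
    refine ⟨G, g1, fun n hn => ?_⟩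
    obtain ⟨h2, h3, h4, h5, h6⟩ := g2 n hn
    exact ⟨h2, ⟨h3, h5⟩, ⟨h4, h6⟩⟩

end Pool.Agent.Results.MP_028722_nt.InversesAndFibonacci
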