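import Mathlib
import Pool.Agent.KS6_1.Beurling.Extreme

/-!
# Large prime gaps with the zeros of the zeta function

We construct generalised primes `q 0 < q 1 < ...` (Beurling) which agree with the primes except in
one short window in every dyadic interval, such that

* the zeta function of the system is `ζ(s) E(s)` with `E` holomorphic and without zeros in
  `Re s > σ₀`, so that it has the zeros and the pole of `ζ` there;
* the counting function of the generalised integers is `ρ x + O (x ^ σ)` for every `σ > σ₀`;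
* the counting function of the generalised primes differs from `π (x)` by
  `O (G (2 x) / log x)`;
* every interval `[x, 8 x]` with `x` large contains a gap which is at least `G`.

Here `0 ≤ σ₀ < 1` and `G` is any eventually nondecreasing function with `G x ≤ x ^ (σ₀ + o(1))`.
For `σ₀ = 0`, `G x = (log x) ^ 3` (say) question Q1 has a negative answer for the system, although
`ζ_Q` has exactly the zeros of `ζ` in `Re s > 0` and `N_Q (x) = ρ x + O (x ^ ε)` for all `ε > 0`.
For `σ₀ = 1/2`, `G x = C √x log x` the system shows that the bound of Cramér under the Riemann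
hypothesis cannot be improved with the information that is used about the zeta function.
-/

set_option autoImplicit false

namespace Pool.Agent.Results.MP_028722_nt.SameZetaZerosLargeGaps

open Filter Asymptotics

/-- The number of generalised integers `∏ q i ^ f i` up to `x`, counted with multiplicity: the
number of the exponent vectors `f` (finitely supported functions from the indices to the natural
numbers) for which the product is at most `x`. -/
noncomputable def intCount (q : ℕ → ℝ) (x : ℝ) : ℕ :=
  Set.ncard {f : ℕ →₀ ℕ | (f.prod fun i k => q i ^ k) ≤ x}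

/-- The number of generalised primes up to `x`. -/
noncomputable def primeCount (q : ℕ → ℝ) (x : ℝ) : ℕ := Set.ncard {n : ℕ | q n ≤ x}

/-- **Large gaps with the zeros of `ζ`.** Let `0 ≤ σ₀ < 1` and let `G` be eventually at least `1`
and nondecreasing with `G x ≤ x ^ (σ₀ + ε)` for every `ε > 0` and large `x`. There are generalised
primes `1 < q 0 < q 1 < ...` and a holomorphic function `E` without zeros on `Re s > σ₀` with
`∏ (1 - q n ^ (-s))⁻¹ = ζ(s) E(s)` for `Re s > 1`, such that the integers of the system have the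
counting function `ρ x + O (x ^ σ)` for every `σ > σ₀`, the primes of the system have the counting
function `π (x) + O (G (2 x) / log x)`, `|q n - p n| ≤ 2 G (2 p n)` for large `n`, and for all
large `x` there is `n` with `x ≤ q n ≤ 8 x` and `q (n + 1) - q n ≥ G (q n)`. -/
theorem result (G : ℝ → ℝ) (σ₀ : ℝ) (h0 : 0 ≤ σ₀) (h1 : σ₀ < 1) (hpos : ∀ᶠ x in atTop, 1 ≤ G x)
    (hmono : ∃ x₀, MonotoneOn G (Set.Ici x₀))
    (hgrow : ∀ ε > 0, ∀ᶠ x in atTop, G x ≤ x ^ (σ₀ + ε)) :
    ∃ (q : ℕ → ℝ) (ρ C : ℝ) (E : ℂ → ℂ), StrictMono q ∧ 1 < q 0 ∧ 0 < ρ ∧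
      (∀ᶠ n in atTop, |q n - (Nat.nth Nat.Prime n : ℝ)| ≤ 2 * G (2 * (Nat.nth Nat.Prime n : ℝ))) ∧
      (∀ᶠ x : ℝ in atTop, |(primeCount q x : ℝ) - Nat.primeCounting ⌊x⌋₊| ≤
        C * G (2 * x) / Real.log x) ∧
      (∀ σ > σ₀, (fun x : ℝ => (intCount q x : ℝ) - ρ * x) =O[atTop] fun x : ℝ => x ^ σ) ∧
      DifferentiableOn ℂ E {s | σ₀ < s.re} ∧ (∀ s : ℂ, σ₀ < s.re → E s ≠ 0) ∧
      (∀ s : ℂ, 1 < s.re → HasProd (fun n : ℕ => (1 - (q n : ℂ) ^ (-s))⁻¹) (riemannZeta s * E s)) ∧
      (∀ᶠ x : ℝ in atTop, ∃ n, x ≤ q n ∧ q n ≤ 8 * x ∧ G (q n) ≤ q (n + 1) - q n) :=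
  Pool.Agent.KS6_1.Beu.Win.extreme G σ₀ h0 h1 hpos hmono hgrow

end Pool.Agent.Results.MP_028722_nt.SameZetaZerosLargeGaps
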